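import Pool.Agent.KS6_77.FK.Count2

set_option autoImplicit false

/-! Long blocks for every length. -/

namespace Pool.Agent.KS6_77.FK

open Finset
open Pool.Agent.H352R3.FK

theorem crt2 (k L t : ℕ) (Mv : Finset ℕ) (hMv : ∀ q ∈ Mv, q.Prime ∧ q < k ∧ t < q) (c : ℕ → ℕ)
    (hcov : ∀ m, t < m → m ≤ t + L → (∀ p : ℕ, p.Prime → p ∣ m → p < k ∧ p ∉ Mv) ∨ (∃ q ∈ Mv, m ≡ c q [MOD q])) :
    ∃ n : ℕ, ∀ i ∈ Icc 1 L, t < ∏ p ∈ (range k).filter Nat.Prime, p ^ ((n + i).factorization p) := by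
  set e : ℕ → ℕ := fun p => if p ∈ Mv then 1 else t + L + 1 with he
  set a : ℕ → ℕ := fun p => if p ∈ Mv then t + (p - 1) * c p else t with ha
  obtain ⟨n, hn⟩ := Nat.chineseRemainderOfFinset a (fun p => p ^ e p) ((range k).filter Nat.Prime)
    (by
      intro p hp
      rw [mem_filter] at hp
      exact pow_ne_zero _ hp.2.ne_zero)
    (by
      intro p hp q hq hpq
      rw [mem_coe, mem_filter] at hp hq
      exact Nat.Coprime.pow _ _ ((Nat.coprime_primes hp.2 hq.2).2 hpq))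
  refine ⟨n, fun i hi => ?_⟩
  rw [mem_Icc] at hi
  have hone : ∀ p ∈ (range k).filter Nat.Prime, 1 ≤ p ^ ((n + i).factorization p) := by
    intro p hp
    exact Nat.one_le_pow _ _ (mem_filter.1 hp).2.pos
  rcases hcov (t + i) (by omega) (by omega) with h | ⟨q, hq, hqm⟩
  · -- unmoved
    have h1 : t + i = ∏ p ∈ (t + i).primeFactors, p ^ ((t + i).factorization p) :=
      (Nat.prod_factorization_pow_eq_self (by omega)).symm
    have h2 : ∏ p ∈ (t + i).primeFactors, p ^ ((t + i).factorization p) ≤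
        ∏ p ∈ (t + i).primeFactors, p ^ ((n + i).factorization p) := by
      apply prod_le_prod'
      intro p hp
      have hpp := Nat.prime_of_mem_primeFactors hp
      have hpd := Nat.dvd_of_mem_primeFactors hp
      obtain ⟨h3, h4⟩ := h p hpp hpd
      apply Nat.pow_le_pow_right hpp.pos
      have h5 := hn p (mem_filter.2 ⟨mem_range.2 h3, hpp⟩)
      rw [ha, he] at h5
      simp only [if_neg h4] at h5
      rw [← hpp.pow_dvd_iff_le_factorization (by omega)]
      have h6 : (t + i).factorization p < t + L + 1 := by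
        have h7 : p ^ (t + i).factorization p ≤ t + i := Nat.ordProj_le p (by omega)
        have h8 : (t + i).factorization p < p ^ (t + i).factorization p := Nat.lt_pow_self hpp.one_lt
        omega
      have h7 : n ≡ t [MOD p ^ (t + i).factorization p] := h5.of_dvd (pow_dvd_pow p h6.le)
      have h8 : n + i ≡ t + i [MOD p ^ (t + i).factorization p] := h7.add_right i
      have h9 : p ^ (t + i).factorization p ∣ t + i := Nat.ordProj_dvd _ _
      exact (h8.dvd_iff dvd_rfl).2 h9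
    have h3 : ∏ p ∈ (t + i).primeFactors, p ^ ((n + i).factorization p) ≤
        ∏ p ∈ (range k).filter Nat.Prime, p ^ ((n + i).factorization p) := by
      apply prod_le_prod_of_subset_of_one_le'
      · intro p hp
        have hpp := Nat.prime_of_mem_primeFactors hp
        have hpd := Nat.dvd_of_mem_primeFactors hp
        exact mem_filter.2 ⟨mem_range.2 (h p hpp hpd).1, hpp⟩
      · intro p hp _
        exact hone p hp
    omega
  · obtain ⟨hqp, hqk, htq⟩ := hMv q hq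
    have hqmem : q ∈ (range k).filter Nat.Prime := mem_filter.2 ⟨mem_range.2 hqk, hqp⟩
    have h5 := hn q hqmem
    rw [ha, he] at h5
    simp only [if_pos hq, pow_one] at h5
    have h6 : q ∣ n + i := by
      have h7 : n + i ≡ t + (q - 1) * c q + i [MOD q] := h5.add_right i
      have h8 : t + (q - 1) * c q + i = (t + i) + (q - 1) * c q := by ring
      rw [h8] at h7
      have h9 : (t + i) + (q - 1) * c q ≡ c q + (q - 1) * c q [MOD q] := hqm.add_right _
      have h10 : c q + (q - 1) * c q = q * c q := by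
        obtain ⟨r, hr⟩ : ∃ r, q = r + 1 := ⟨q - 1, by have := hqp.pos; omega⟩
        rw [hr, Nat.add_sub_cancel]
        ring
      rw [h10] at h9
      have h11 := h7.trans h9
      exact (h11.dvd_iff dvd_rfl).2 (dvd_mul_right _ _)
    have h7 : 1 ≤ (n + i).factorization q := (hqp.dvd_iff_one_le_factorization (by omega)).1 h6
    have h8 : q ≤ q ^ ((n + i).factorization q) := by
      calc q = q ^ 1 := (pow_one q).symm
        _ ≤ _ := Nat.pow_le_pow_right hqp.pos h7
    have h9 : q ^ ((n + i).factorization q) ≤ ∏ p ∈ (range k).filter Nat.Prime, p ^ ((n + i).factorization p) :=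
      single_le_prod' hone hqmem
    omega

/-- The additional numbers to be covered. -/
def EX (ℓ t : ℕ) : Finset ℕ :=
  PI ((DD ℓ + 1) * t) ((DD ℓ + 2) * t) ∪ (PI (DD ℓ / 2 * t) ((DD ℓ / 2 + 1) * t)).image (fun q => 2 * q) ∪
    Ioc ((DD ℓ + 2) * t) ((DD ℓ + 2) * t + DD ℓ)

lemma half (ℓ : ℕ) : DD ℓ / 2 = 20000 * VV ℓ := by unfold DD; omega

lemma card_EX (ℓ t : ℕ) : (EX ℓ t).card ≤ (PI ((DD ℓ + 1) * t) ((DD ℓ + 2) * t)).card +
    (PI (DD ℓ / 2 * t) ((DD ℓ / 2 + 1) * t)).card + DD ℓ := by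
  unfold EX
  refine (card_union_le _ _).trans ?_
  have h1 := card_union_le (PI ((DD ℓ + 1) * t) ((DD ℓ + 2) * t))
    ((PI (DD ℓ / 2 * t) ((DD ℓ / 2 + 1) * t)).image (fun q => 2 * q))
  have h2 : ((PI (DD ℓ / 2 * t) ((DD ℓ / 2 + 1) * t)).image (fun q => 2 * q)).card ≤
    (PI (DD ℓ / 2 * t) ((DD ℓ / 2 + 1) * t)).card := card_image_le
  have h3 : (Ioc ((DD ℓ + 2) * t) ((DD ℓ + 2) * t + DD ℓ)).card = DD ℓ := by
    rw [Nat.card_Ioc]; omega
  omega

lemma need2 (ℓ t : ℕ) (ht : 1 ≤ t) (m : ℕ) (hm1 : t + DD ℓ * t < m) (hm2 : m ≤ (DD ℓ + 2) * t + DD ℓ) :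
    (∀ p : ℕ, p.Prime → p ∣ m → p < DD ℓ * t ∧ p ∉ MV ℓ t) ∨ m ∈ EX ℓ t := by
  rcases Nat.lt_or_ge ((DD ℓ + 2) * t) m with hbig | hsm
  · right
    unfold EX
    rw [mem_union]
    right
    rw [mem_Ioc]
    exact ⟨hbig, hm2⟩
  by_cases h : ∀ p : ℕ, p.Prime → p ∣ m → p < DD ℓ * t ∧ p ∉ MV ℓ t
  · exact Or.inl h
  right
  push Not at h
  obtain ⟨p, hp, ⟨j, rfl⟩, h2⟩ := h
  have hV := VV_pos ℓ
  have hVt : 1 ≤ VV ℓ * t := Nat.mul_pos hV ht
  have hts : t ≤ VV ℓ * t := Nat.le_mul_of_pos_left t hV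
  have e2 : (DD ℓ + 2) * t = 40000 * (VV ℓ * t) + 2 * t := by unfold DD; ring
  have e1 : (DD ℓ + 1) * t = 40000 * (VV ℓ * t) + t := by unfold DD; ring
  have e0 : DD ℓ * t = 40000 * (VV ℓ * t) := by unfold DD; ring
  have eh : DD ℓ / 2 * t = 20000 * (VV ℓ * t) := by rw [half]; ring
  have eh1 : (DD ℓ / 2 + 1) * t = 20000 * (VV ℓ * t) + t := by rw [half]; ring
  rw [e0] at h2 hm1
  rw [e2] at hsm
  have hj : j ≠ 0 := by rintro rfl; omega
  unfold EX
  rw [mem_union, mem_union]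
  left
  by_cases h3 : p < 40000 * (VV ℓ * t)
  · have h4 := h2 h3
    unfold MV at h4
    simp only [mem_union] at h4
    rcases h4 with (h4 | h4) | h4
    · exfalso
      obtain ⟨a1, a2, _⟩ := T3_win h4
      rcases Nat.lt_or_ge j 4 with hj4 | hj4
      · have : p * j ≤ p * 3 := Nat.mul_le_mul_left p (by omega)
        omega
      · have : p * 4 ≤ p * j := Nat.mul_le_mul_left p (by omega)
        omega
    · exfalso
      obtain ⟨a1, a2, _⟩ := T2_win h4
      rcases Nat.lt_or_ge j 3 with hj4 | hj4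
      · have : p * j ≤ p * 2 := Nat.mul_le_mul_left p (by omega)
        omega
      · have : p * 3 ≤ p * j := Nat.mul_le_mul_left p (by omega)
        omega
    · obtain ⟨a1, a2, _⟩ := T1_win h4
      have hj2 : j = 2 := by
        rcases Nat.lt_or_ge j 3 with hj4 | hj4
        · interval_cases j
          · exact absurd rfl hj
          · omega
          · rfl
        · have : p * 3 ≤ p * j := Nat.mul_le_mul_left p (by omega)
          omega
      subst hj2
      right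
      rw [mem_image]
      refine ⟨p, ?_, by ring⟩
      unfold PI
      rw [mem_filter, mem_Ioc, eh, eh1]
      exact ⟨⟨by omega, by omega⟩, hp⟩
  · have hj1 : j = 1 := by
      rcases Nat.lt_or_ge j 2 with hj4 | hj4
      · omega
      · have : p * 2 ≤ p * j := Nat.mul_le_mul_left p (by omega)
        omega
    subst hj1
    left
    rw [mul_one] at hm1 hsm ⊢
    unfold PI
    rw [mem_filter, mem_Ioc, e1, e2]
    exact ⟨⟨by omega, by omega⟩, hp⟩

theorem main2 : ∃ D : ℕ, 1 ≤ D ∧ ∃ t0 : ℕ, ∀ t : ℕ, t0 ≤ t → ∀ k : ℕ, D * t ≤ k →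
    ∃ n : ℕ, ∀ i ∈ Icc 1 ((D + 1) * t + D),
      t < ∏ p ∈ (range k).filter Nat.Prime, p ^ ((n + i).factorization p) := by
  obtain ⟨ℓ, hℓ, t0, hcount⟩ := count2
  have hV := VV_pos ℓ
  have hD16 : 16 ≤ DD ℓ := by unfold DD; omega
  obtain ⟨t1, hnext⟩ := next_cell (DD ℓ) hD16
  refine ⟨DD ℓ, by omega, max (max t0 t1) 1, fun t ht k hk => ?_⟩
  have ht1 : 1 ≤ t := le_trans (le_max_right _ _) ht
  obtain ⟨Bd, N, M, hM, hf, hg, hh, hcl, hbad, hcell, hDN, hcard⟩ :=
    hcount t (le_trans (le_trans (le_max_left _ _) (le_max_left _ _)) ht)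
  have hst : 1 ≤ VV ℓ * t := ht1.trans (t_le ℓ t)
  have hh1 : DD ℓ ≤ 8 * (DD ℓ / 2) := by rw [half]; unfold DD; omega
  have hh2 : DD ℓ / 2 + 1 ≤ DD ℓ := by rw [half]; unfold DD; omega
  have hhalf := hcell (DD ℓ / 2) hh1 hh2
  have hnx := hnext t (le_trans (le_trans (le_max_right _ _) (le_max_left _ _)) ht) _ hh1 hh2 N hhalf
  have hT3 : ((T3 ℓ t).card : ℝ) ≤ 2 * (6 * ℓ * N) := by
    have h1 := card_union_le (clsU ℓ t 10100) (clsU ℓ t 10120)
    have h2 : ((T3 ℓ t).card : ℝ) ≤ (clsU ℓ t 10100).card + (clsU ℓ t 10120).card := by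
      unfold T3
      exact_mod_cast h1
    have h3 := hcl 10100 (by norm_num) (by norm_num)
    have h4 := hcl 10120 (by norm_num) (by norm_num)
    unfold clsU at h2
    linarith
  have hT2 : ((T2 ℓ t).card : ℝ) ≤ 5 * (6 * ℓ * N) := by
    have h1 : (T2 ℓ t).card ≤ (clsU ℓ t 14550).card + (clsU ℓ t 17600).card + (clsU ℓ t 19000).card +
        (clsU ℓ t 19600).card + (clsU ℓ t 19200).card := by
      unfold T2
      have a1 := card_union_le (clsU ℓ t 14550 ∪ clsU ℓ t 17600 ∪ clsU ℓ t 19000 ∪ clsU ℓ t 19600) (clsU ℓ t 19200)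
      have a2 := card_union_le (clsU ℓ t 14550 ∪ clsU ℓ t 17600 ∪ clsU ℓ t 19000) (clsU ℓ t 19600)
      have a3 := card_union_le (clsU ℓ t 14550 ∪ clsU ℓ t 17600) (clsU ℓ t 19000)
      have a4 := card_union_le (clsU ℓ t 14550) (clsU ℓ t 17600)
      omega
    have h2 : ((T2 ℓ t).card : ℝ) ≤ (clsU ℓ t 14550).card + (clsU ℓ t 17600).card + (clsU ℓ t 19000).card +
        (clsU ℓ t 19600).card + (clsU ℓ t 19200).card := by exact_mod_cast h1
    have h3 := hcl 14550 (by norm_num) (by norm_num)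
    have h4 := hcl 17600 (by norm_num) (by norm_num)
    have h5 := hcl 19000 (by norm_num) (by norm_num)
    have h6 := hcl 19600 (by norm_num) (by norm_num)
    have h7 := hcl 19200 (by norm_num) (by norm_num)
    unfold clsU at h2
    linarith
  have hcN : (ND ℓ t ∪ EX ℓ t).card ≤ (MV ℓ t).card + M.card := by
    have h0 := card_union_le (ND ℓ t) (EX ℓ t)
    have h0' := card_EX ℓ t
    have h1 := card_ND ℓ t
    have h2 := card_MV ℓ t
    have h3 : ((ND ℓ t).card : ℝ) ≤ 3 * (T3 ℓ t).card + 2 * (T2 ℓ t).card + (T1 ℓ t).card +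
      (PI (DD ℓ * t) ((DD ℓ + 1) * t)).card := by exact_mod_cast h1
    have h4 : ((MV ℓ t).card : ℝ) = (T3 ℓ t).card + (T2 ℓ t).card + (T1 ℓ t).card := by exact_mod_cast h2
    have h5 : ((EX ℓ t).card : ℝ) ≤ (PI ((DD ℓ + 1) * t) ((DD ℓ + 2) * t)).card +
      (PI (DD ℓ / 2 * t) ((DD ℓ / 2 + 1) * t)).card + DD ℓ := by exact_mod_cast h0'
    have h6 : ((ND ℓ t ∪ EX ℓ t).card : ℝ) ≤ (ND ℓ t).card + (EX ℓ t).card := by exact_mod_cast h0
    have h7 : ((ND ℓ t ∪ EX ℓ t).card : ℝ) ≤ (MV ℓ t).card + M.card := by linarith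
    exact_mod_cast h7
  obtain ⟨c, hc⟩ := cover M mv ps (MV ℓ t) (ND ℓ t ∪ EX ℓ t) (mv_mem ht1 hM) (mv_inj ht1 hM hf hg hh)
    (fun p hp b => mem_union_left _ (ps_mem ht1 hM p hp b)) (ps_inj hst hM hf hg hh) hcN
  apply crt2 k ((DD ℓ + 1) * t + DD ℓ) t (MV ℓ t) _ c
  · intro m hm1 hm2
    have hex : (∀ p : ℕ, p.Prime → p ∣ m → p < DD ℓ * t ∧ p ∉ MV ℓ t) ∨ m ∈ ND ℓ t ∪ EX ℓ t := by
      rcases Nat.lt_or_ge (t + DD ℓ * t) m with h | h
      · rcases need2 ℓ t ht1 m h (by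
          have : (DD ℓ + 2) * t = t + (DD ℓ + 1) * t := by ring
          omega) with h1 | h1
        · exact Or.inl h1
        · exact Or.inr (mem_union_right _ h1)
      · rcases need ℓ t ht1 m hm1 h with h1 | h1
        · exact Or.inl h1
        · exact Or.inr (mem_union_left _ h1)
    rcases hex with h | h
    · exact Or.inl (fun p hp hpm => ⟨(h p hp hpm).1.trans_le hk, (h p hp hpm).2⟩)
    · right
      rcases hc m h with ⟨p, hp, b, h1, h2⟩ | ⟨q, hq, h1⟩
      · refine ⟨mv p, mv_mem ht1 hM p hp, ?_⟩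
        rw [h1, h2]
        exact ps_mod hM p hp b
      · refine ⟨q, hq, ?_⟩
        rw [h1]
  · intro q hq
    have hts := t_le ℓ t
    have hk' := hk
    rw [DDt] at hk'
    unfold MV at hq
    simp only [mem_union] at hq
    rcases hq with (h | h) | h
    · have e := T3_win h
      exact ⟨e.2.2, by omega, by omega⟩
    · have e := T2_win h
      exact ⟨e.2.2, by omega, by omega⟩
    · have e := T1_win h
      exact ⟨e.2.2, by omega, by omega⟩

theorem main3 : ∃ c : ℝ, 0 < c ∧ ∀ k : ℕ, ∃ n : ℕ, ∀ i : ℕ, 1 ≤ i → (i : ℝ) ≤ (1 + c) * k →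
    c * k ≤ ((∏ p ∈ (range k).filter Nat.Prime, p ^ ((n + i).factorization p) : ℕ) : ℝ) := by
  obtain ⟨D, hD, t0, hmain⟩ := main2
  have hD0 : (0 : ℝ) < D := by exact_mod_cast hD
  have hD1 : (1 : ℝ) ≤ D := by exact_mod_cast hD
  set k0 : ℕ := D * (max t0 1 + 1) with hk0
  have hk00 : (0 : ℝ) ≤ k0 := Nat.cast_nonneg _
  refine ⟨min (1 / (2 * D)) (1 / (k0 + 1)), by positivity, fun k => ?_⟩
  set c : ℝ := min (1 / (2 * D)) (1 / (k0 + 1)) with hc
  have hc0 : 0 < c := by positivity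
  have hc1 : c ≤ 1 / (2 * D) := min_le_left _ _
  have hc2 : c ≤ 1 / (k0 + 1) := min_le_right _ _
  have hcD : c * (2 * D) ≤ 1 := by rwa [le_div_iff₀ (by positivity)] at hc1
  have hck : c * (k0 + 1) ≤ 1 := by rwa [le_div_iff₀ (by positivity)] at hc2
  rcases Nat.lt_or_ge k k0 with h | h
  · refine ⟨0, fun i hi1 hi2 => ?_⟩
    have h1 : (k : ℝ) ≤ k0 := by exact_mod_cast h.le
    have h2 : c * k ≤ c * (k0 + 1) := mul_le_mul_of_nonneg_left (by linarith) hc0.le
    have h3 : (1 : ℝ) ≤ ((∏ p ∈ (range k).filter Nat.Prime, p ^ ((0 + i).factorization p) : ℕ) : ℝ) := by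
      have : 1 ≤ ∏ p ∈ (range k).filter Nat.Prime, p ^ ((0 + i).factorization p) := by
        apply Nat.one_le_iff_ne_zero.2
        rw [prod_ne_zero_iff]
        intro p hp
        exact pow_ne_zero _ (mem_filter.1 hp).2.ne_zero
      exact_mod_cast this
    linarith
  · set t : ℕ := k / D with ht
    have hDpos : 0 < D := hD
    have h1 : D * t ≤ k := Nat.mul_div_le k D
    have h2 : k < D * (t + 1) := Nat.lt_mul_div_succ k hDpos
    have h3 : max t0 1 ≤ t := by
      rw [ht, Nat.le_div_iff_mul_le hDpos]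
      calc max t0 1 * D ≤ (max t0 1 + 1) * D := Nat.mul_le_mul_right D (by omega)
        _ = k0 := by rw [hk0]; ring
        _ ≤ k := h
    have ht1 : 1 ≤ t := (le_max_right _ _).trans h3
    have ht1r : (1 : ℝ) ≤ t := by exact_mod_cast ht1
    have h2r : (k : ℝ) ≤ D * (t + 1) := by exact_mod_cast h2.le
    obtain ⟨n, hn⟩ := hmain t ((le_max_left _ _).trans h3) k h1
    refine ⟨n, fun i hi1 hi2 => ?_⟩
    have h4 : c * k ≤ t := by
      have h5 : c * k ≤ c * (D * (t + 1)) := mul_le_mul_of_nonneg_left h2r hc0.le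
      nlinarith
    have h6 : i ∈ Icc 1 ((D + 1) * t + D) := by
      rw [mem_Icc]
      refine ⟨hi1, ?_⟩
      have h7 : (i : ℝ) ≤ (D + 1) * t + D := by nlinarith
      exact_mod_cast h7
    have h8 := hn i h6
    have h9 : (t : ℝ) < ((∏ p ∈ (range k).filter Nat.Prime, p ^ ((n + i).factorization p) : ℕ) : ℝ) := by
      exact_mod_cast h8
    linarith

end Pool.Agent.KS6_77.FK
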